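import Pool.Agent.Y690.PP.Stm2
import Pool.Agent.Y901.PP.Rec

/-! Project PP2, job SUPP: the supplementary law for `1 + i` in the Gaussian integers. -/

set_option autoImplicit false

open Pool.Agent.Y690.PP Pool.Agent.Y690.PP.Fn Pool.Agent.Y901.PP.Rec

namespace Pool.Agent.Y983.PP

open scoped NumberTheorySymbols

theorem j2 (n : ℕ) (hn : n % 2 = 1) : J(2 | n) = if n % 8 = 1 ∨ n % 8 = 7 then 1 else -1 := by
  have hodd : Odd n := Nat.odd_iff.2 hn
  rw [jacobiSym.at_two hodd, ZMod.χ₈_nat_eq_if_mod_eight, if_neg (by omega)]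

theorem sg_val (x y : ℤ) : sg (1 + (⟨2, 2⟩ : G) * ⟨x, y⟩) = if Even x then 1 else -1 := by
  unfold sg
  congr 1
  apply propext
  constructor
  · rintro ⟨x', y', hx, h⟩
    have h1 := congrArg Zsqrtd.re h
    have h2 := congrArg Zsqrtd.im h
    simp at h1 h2
    have : x' = x := by omega
    rwa [this] at hx
  · intro hx
    exact ⟨x, y, hx, rfl⟩

theorem t_SUPP : SSUPP := by
  rintro ⟨c, d⟩ hp hpp
  obtain ⟨hc, hd, h4⟩ := prm_cong hpp
  obtain ⟨⟨x, y⟩, hxy⟩ := hpp
  have hxy' : (⟨c, d⟩ : G) = 1 + (⟨2, 2⟩ : G) * ⟨x, y⟩ := by rw [← hxy]; ring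
  have h1 := congrArg Zsqrtd.re hxy'
  have h2 := congrArg Zsqrtd.im hxy'
  simp at h1 h2
  have hsg : sg (⟨c, d⟩ : G) = if Even x then 1 else -1 := by rw [hxy']; exact sg_val x y
  rw [hsg]
  unfold la
  rcases cls hp hc hd h4 with hP | ⟨l, hl, hl3, hleq⟩
  · -- split
    rw [qs_split hP hc hd]
    have hP4 := nm_mod hc hd
    have e1 : 1 * c + 1 * d = 1 + 4 * x := by omega
    rw [e1, jac_flip hP4 (by omega)]
    have hNodd : (1 + 4 * x).natAbs % 2 = 1 := by omega
    have hj2 := j2 _ hNodd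
    -- `J(2 P | |1 + 4 x|) = 1`
    have hcop : IsCoprime (c - d) (1 + 4 * x) := by
      have h0 := cop_self hP
      refine isCoprime_of_prime_dvd ?_ ?_
      · rintro ⟨-, h⟩
        omega
      · rintro z hz hz1 hz2
        have e2 : 1 + 4 * x = c + d := by omega
        rw [e2] at hz2
        have e3 : z ∣ 2 * c := by
          have := dvd_add hz1 hz2
          rwa [show c - d + (c + d) = 2 * c by ring] at this
        have e4 : z ∣ 2 * d := by
          have := dvd_sub hz2 hz1
          rwa [show c + d - (c - d) = 2 * d by ring] at this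
        have hz' : ¬ z ∣ 2 := by
          intro h
          have h5 : z ∣ c + d - 2 * ((c + d) / 2) := dvd_sub hz2 (h.mul_right _)
          have h6 : c + d - 2 * ((c + d) / 2) = 1 := by omega
          rw [h6] at h5
          exact hz.not_isUnit (isUnit_of_dvd_one h5)
        have e5 := (hz.dvd_or_dvd e3).resolve_left hz'
        have e6 := (hz.dvd_or_dvd e4).resolve_left hz'
        exact hz.not_isUnit (h0.isUnit_of_dvd' e6 e5)
    have hprod : J(((2 * nm ⟨c, d⟩ : ℕ) : ℤ) | (1 + 4 * x).natAbs) = 1 := by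
      have h3 : J(((2 * nm ⟨c, d⟩ : ℕ) : ℤ) | (1 + 4 * x).natAbs) =
          J((c - d) ^ 2 | (1 + 4 * x).natAbs) := by
        apply jacobiSym.mod_left'
        refine Int.modEq_iff_dvd.mpr ?_
        rw [Int.natAbs_dvd]
        push_cast
        rw [nm_eq]
        refine ⟨-(1 + 4 * x), ?_⟩
        have e2 : 1 + 4 * x = c + d := by omega
        rw [e2]; ring
      rw [h3]
      apply jacobiSym.sq_one'
      have h3 := Int.isCoprime_iff_gcd_eq_one.mp hcop
      rw [Int.gcd_eq_natAbs] at h3 ⊢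
      rw [Int.natAbs_natCast]
      exact h3
    push_cast at hprod
    rw [jacobiSym.mul_left, hj2] at hprod
    rcases Int.even_or_odd x with hx | hx
    · have h8 : (1 + 4 * x).natAbs % 8 = 1 ∨ (1 + 4 * x).natAbs % 8 = 7 := by
        obtain ⟨k, hk⟩ := hx
        omega
      rw [if_pos h8, one_mul] at hprod
      rw [if_pos hx, hprod]
    · have h8 : ¬ ((1 + 4 * x).natAbs % 8 = 1 ∨ (1 + 4 * x).natAbs % 8 = 7) := by
        obtain ⟨k, hk⟩ := hx
        omega
      rw [if_neg h8] at hprod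
      rw [if_neg (Int.not_even_iff_odd.2 hx)]
      linarith
  · rw [hleq, qs_inert hl hl3]
    have e1 := congrArg Zsqrtd.re hleq
    have e2 := congrArg Zsqrtd.im hleq
    simp at e1 e2
    have e3 : (1 : ℤ) * 1 + 1 * 1 = 2 := by norm_num
    rw [e3, j2 l (by omega)]
    rcases Int.even_or_odd x with hx | hx
    · rw [if_pos hx, if_pos]
      obtain ⟨k, hk⟩ := hx
      omega
    · rw [if_neg (Int.not_even_iff_odd.2 hx), if_neg]
      obtain ⟨k, hk⟩ := hx
      omega

end Pool.Agent.Y983.PP
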